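import Pool.Agent.U554.TD.SerTwo

/-!
# Hodge classes and Tate classes in all graded parts of the cohomology of open and singular varieties

Let `k ⊆ ℂ` be a number field, `ℓ` a prime.

* `𝓒` is an abelian category of mixed motives over `k` with an exact weight filtration (for example Nori motives),
  `gr c : 𝓒 ⥤ 𝓢` is the functor `M ↦ (gr_{-2 c}^W M)(-c)` with values in the semisimple category `𝓢` of pure
  (André) motives of weight `0`, and `O b m X`, for the separated schemes `X` of finite type over `k`, is the Borel-Moore
  homology motive `H_{m + 2 b}(X)(-b)`. If `X` is smooth of pure dimension `n`, this is `H^{2 j - m}(X)(j)`,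
  `j = n - b`.
* `S.F M` is the `ℓ`-adic realization of `M`, `S.one M` the span of the Hodge classes, `S.two M` the space of the
  classes which are invariant under an open subgroup of the Galois group (Tate classes). By Tannaka
  duality the Mumford-Tate conjecture for `H^i(X)` is the equality of the two spaces for all direct factors of weight
  `0` of the tensor constructions of `H^i(X)`, and hence it follows for all `X` from the equality for the
  `H^{2 j}(V)(j)` of all `V` (`V = X^n`).
* `SameClasses`: for all `c`, `b`, `m` the Hodge classes and the Tate classes of `(gr_{-2 c}^W O b m X)(-c)` span the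
  same space.

Let `T` be a trilinear form in three blocks `x`, `y`, `z` of `a₁`, `a₂`, `a₃` variables; `bilS T` is the scheme `Z_T` given
by `∂T/∂x_i (y, z) = 0`, and `hypS T` is the smooth affine cubic hypersurface `Y_T : T(x, y, z) = 1`.
-/

set_option autoImplicit false

open CategoryTheory AlgebraicGeometry MvPolynomial Pool.Agent.Y116.UV Pool.Agent.U554.TW Pool.Agent.U554.TD
  Pool.Agent.U483.GU

universe v u v' u' w

namespace Pool.Agent.Results.MP_c1bb77_ag.AllDegrees

variable {𝓒 : Type u} [Category.{v} 𝓒] [Abelian 𝓒] {𝓢 : Type u'} [Category.{v'} 𝓢] [Abelian 𝓢]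
  {K : Type w} [Field K] {k : Type} [Field k]

/-- In all graded parts of even weight of the mixed motive `M` the Hodge classes and the Tate classes span the same
space. -/
def SameParts (S : TwoSpaces K 𝓢) (gr : ℤ → 𝓒 ⥤ 𝓢) (M : 𝓒) : Prop :=
  ∀ c : ℤ, S.one ((gr c).obj M) = S.two ((gr c).obj M)

/-- The same for all Borel-Moore homology groups of `X`. -/
def SameClasses (S : TwoSpaces K 𝓢) (gr : ℤ → 𝓒 ⥤ 𝓢) (O : ℤ → ℤ → Sch k → 𝓒) (X : Sch k) : Prop :=
  ∀ b m : ℤ, SameParts S gr (O b m X)

/-- The known properties: the properties `IsAbTheory` of the motives `H_{m + 2 b}(X)(-b)` (isomorphic schemes, long exact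
sequences, zero in small weights, homotopy invariance, Jouanolou's bundles, restriction from `X × 𝔾_m`) and

* `boundary`: `H_{m + 2 b}(X)(-b)` is a direct factor of the motive of `X × 𝔾_m` in the degree `m + 1`;
* `semisimple`, `exact`: the pure motives are semisimple, the graded parts are exact functors;
* `curves`: the assertion for the schemes of dimension at most `1` (their graded parts of even weight are twists of
  Artin motives);
* `resolution`: if the assertion is true for all smooth projective schemes of dimension at most `d`, then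
  for all schemes of dimension at most `d` (Hironaka, Deligne: the graded parts are direct factors of twists of the
  cohomology of smooth projective schemes of dimension at most `d`). -/
structure IsMixedTheory (S : TwoSpaces K 𝓢) (gr : ℤ → 𝓒 ⥤ 𝓢) (O : ℤ → ℤ → Sch k → 𝓒) : Prop
    extends IsAbTheory O where
  boundary : ∀ (A : Type) [CommRing A] [Algebra k A] [Algebra.FiniteType k A] (b m : ℤ),
    Nonempty (Retract (O b m (aff k A)) (O b (m + 1) (aff k (LaurentPolynomial A))))
  semisimple : ∀ {A B : 𝓢} (f : A ⟶ B) [Mono f], ∃ r : B ⟶ A, f ≫ r = 𝟙 A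
  exact : ∀ c : ℤ, IsExactFunctor (gr c)
  curves : ∀ X : Sch k, FT True X → topologicalKrullDim X.left ≤ (1 : ℕ) → SameClasses S gr O X
  resolution : ∀ d : ℕ,
    (∀ V : Sch k, SmoothProjective V → topologicalKrullDim V.left ≤ d → SameClasses S gr O V) →
    ∀ X : Sch k, FT True X → topologicalKrullDim X.left ≤ d → SameClasses S gr O X

/-- **Hodge classes and Tate classes in all degrees and cubics.**

(A) If one of the three blocks of `T` has at most `3` variables (the other two are arbitrary), then in all
graded parts of even weight of all Borel-Moore homology groups of `Z_T` and of all cohomology groups of `Y_T` the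
Hodge classes and the Tate classes span the same space.

(B) Let `d ≥ 1` and `s` be any numbers. The following are equivalent (and true for `d = 1`):

1. `d ≤ 1`, or the spaces are the same for all `H^{2 j}(V)(j)` of all smooth projective `V` of dimension at most `d`;
2. the same for all graded parts of all groups of all separated `X` of finite type of dimension at most `d`;
3. the same for all `Z_T` with a block of at most `d + 2` variables, and for all closed subschemes of affine
   spaces given by equations with `t_1, …, t_c` terms, `∑ max(t_i - 2, 0) ≤ d`;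
4. the same for all `Y_T` with a block of at most `d + 2` variables;
5. the same for the groups `H^{2 j - m}(Y_T)(j)`, `j ≥ s`, `m` arbitrary, and all `T` with exactly `d + 2`
   variables `y`. -/
theorem result [PerfectField k] (S : TwoSpaces K 𝓢) (gr : ℤ → 𝓒 ⥤ 𝓢) (O : ℤ → ℤ → Sch k → 𝓒)
    (hO : IsMixedTheory S gr O) :
    (∀ (a₁ a₂ a₃ : ℕ) (T : Fin a₁ → Fin a₂ → Fin a₃ → k), OneSmall 3 a₁ a₂ a₃ →
      SameClasses S gr O (bilS T) ∧ SameClasses S gr O (hypS T)) ∧
    ∀ d : ℕ, 1 ≤ d → ∀ s : ℕ, List.TFAE [
      d ≤ 1 ∨ ∀ V : Sch k, SmoothProjective V → topologicalKrullDim V.left ≤ d → SameClasses S gr O V,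
      ∀ X : Sch k, FT True X → topologicalKrullDim X.left ≤ d → SameClasses S gr O X,
      (∀ (a₁ a₂ a₃ : ℕ) (T : Fin a₁ → Fin a₂ → Fin a₃ → k), OneSmall (d + 2) a₁ a₂ a₃ →
        SameClasses S gr O (bilS T)) ∧
      ∀ (n : ℕ) (G : Finset (MvPolynomial (Fin n) k)), ∑ g ∈ G, (g.support.card - 2) ≤ d →
        SameClasses S gr O
          (aff k (MvPolynomial (Fin n) k ⧸ Ideal.span (G : Set (MvPolynomial (Fin n) k)))),
      ∀ (a₁ a₂ a₃ : ℕ) (T : Fin a₁ → Fin a₂ → Fin a₃ → k), OneSmall (d + 2) a₁ a₂ a₃ →
        SameClasses S gr O (hypS T),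
      ∀ (a₁ a₃ : ℕ) (T : Fin a₁ → Fin (d + 2) → Fin a₃ → k), ∀ j : ℕ, s ≤ j → ∀ m : ℤ,
        SameParts S gr (O (a₁ + (d + 2) + a₃ - 1 - j) m (hypS T))] := by
  have hP : IsSerre (SameParts S gr) := serre_parts (Q := fun _ => S.Equal) hO.semisimple hO.exact
    (fun _ => S.isAdditive) fun _ X hX => S.equal_zero hX
  have hpt := everywhere_point (P := SameParts S gr) hO.curves
  refine ⟨fun a₁ a₂ a₃ T ha => ?_, fun d hd s => ?_⟩
  · have h1 := everywhere_bil hP hO.toIsAbTheory hpt 1 hO.curves T ha
    exact ⟨h1, everywhere_hyp hP hO.toIsAbTheory hpt T h1⟩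
  · exact everywhere_tfae hP hO.toIsAbTheory hO.boundary 1 hO.curves hO.resolution d hd s

end Pool.Agent.Results.MP_c1bb77_ag.AllDegrees
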