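import Pool.Agent.U442.Gro.Main

/-!
# The Mumford-Tate conjecture for products of hyperelliptic Jacobians with ALL varieties with good reduction
# outside of a finite set of places at once

Let `K` be a number field and let `n i ≥ 7`, `i` in a finite nonempty set, be odd numbers. We consider
the tuples `f` of monic polynomials `f i` over the ring of integers of `K`, of degrees `n i`; `J i` is
the Jacobian of the curve `y ^ 2 = f i (x)`, of dimension `(n i - 1) / 2`. The group `J i (F)`, for an
algebraically closed field `F`, is the class group of the ring `F[x, y]` of the affine curve (the curve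
has one point at infinity), and `V_2 (J i)` is its rational 2-adic Tate module.

Let `S` be a finite set of finite places of `K`. We consider all finite extensions `L` of `K` and all
integral 2-adic representations of the absolute Galois group of `L`, of any rank `d`, in the form of
their matrices `t s` over the 2-adic integers, such that `L` and the action modulo 2 are unramified
outside of `S`: there is a finite normal extension `E` of `K` which contains `L`, is unramified at
the finite places outside of `S` (`UnramifiedOutside`), and whose Galois group acts trivially modulo 2. If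
`S` contains the places above 2, this is so for the cohomology `H^i(Z, ℤ_2)` (modulo torsion) of all
smooth projective varieties `Z` over `K` with good reduction outside of `S`, and also over the finite
extensions `L` of `K` which are unramified outside of `S`. There are infinitely many such
representations, of unbounded rank and weight.

`AllMotives`: for ALL pure motives `M` in the tensor category generated by `Z` (`Generated`: obtained
from the 2-adic realization of `Z` and characters with values in `ℤ_2ˣ`, such as the Tate twists, by
tensor products, direct sums, duals, subrepresentations and quotients; for instance all direct summands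
of the cohomology of all powers `Z ^ b`) and for EVERY prime number `ℓ` (`EveryPrime`): the `f i` are
separable, and all Tate classes on all powers `A ^ a` of the product `A` of the Jacobians with values in
the `ℓ`-adic realization of `M(c)` are zero in odd degrees, and in even degrees they are linear
combinations of products of Tate classes of degree two on `A ^ a` and Tate classes of `M`
(`ProductsWith`). The Tate classes of degree two on abelian varieties are algebraic (Faltings), so they
are combinations of Hodge classes. So if the Tate classes on the powers of `Z` are combinations of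
Hodge classes then the same is true for all the varieties `J 1 ^ m 1 × ... × J r ^ m r × Z ^ b`. (The
Mumford-Tate conjecture for `X` says that the group which fixes the Hodge classes on the powers of `X`
and the connected group which fixes the Tate classes are the same. The definitions and the theorem
contain only Tate classes; `M` and `A` enter through the characteristic polynomials `Q v` and `P v`
of the Frobenius elements outside of any finite set of places, their purity, and one continuous 2-adic
realization.)

**Theorem.** (1) For every finite set `S` of finite places, 100% of the tuples `f` are such that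
`AllMotives` is true for ALL `L` and ALL representations as above (`AllOutside`): the proportion tends to
one in all sequences of finite sets of tuples which are equidistributed modulo all nonzero ideals, for
instance boxes.

(2) For each `η > 0` there is a nonzero ideal `I` such that for a proportion of at least `1 - η` of the
residue classes modulo `I` of tuples, `AllOutside` is true for ALL tuples in the class.

(3) For equidistributed sets `B t` of tuples there are finite sets `S 0`, `S 1`, ... of finite places,
such that each finite place is in `S t` for all large `t`, and the proportion of the tuples in `B t` with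
`AllOutside` for `S t` tends to one. So ONE exceptional set of tuples of density zero is sufficient for
all finite extensions `L` and all motives `Z` over `L`: for `f` in `B t`, not in this set, the
conclusion holds for all `L` and `Z` which are unramified outside of `S t`.

What is new. In the starting result `MP_640417_ag.HyperellipticEveryPrime` and in
`MP_021685_ag.EveryPrimeAllPowers` the exceptional set of density zero depends on the motive `Z`, or the
motives have to satisfy a condition on the square classes which become squares modulo 2. Here there is no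
condition besides the ramification. Proof: the elements of `K` whose square roots generate extensions
unramified outside of `S` are in finitely many square classes; the discriminants of 100% of the tuples
are not in these classes, and then the theorems of the folders `N197.Htj` and `N197.AP` of the
starting library and `U442.Htj` can be applied.
-/

set_option autoImplicit false

namespace Pool.Agent.Results.MP_c1bb77_ag.GoodReductionOutsideS

open Polynomial Filter Topology NumberField IsDedekindDomain
open Pool.Agent.U442.Htj (Generated)
open Pool.Agent.U442.Htj.EP (AbsoluteGaloisGroup matRep EveryPrime)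
open scoped Classical

/-- the matrices over `ℚ_2` -/
noncomputable def toQ {G : Type} [Group G] {d : ℕ} (t : G →* Matrix (Fin d) (Fin d) ℤ_[2]) :
    G →* Matrix (Fin d) (Fin d) ℚ_[2] :=
  ((algebraMap ℤ_[2] ℚ_[2]).mapMatrix : Matrix (Fin d) (Fin d) ℤ_[2] →+* _).toMonoidHom.comp t

/-- The matrix of `s` is congruent to one modulo two. -/
def TrivialModTwo {G : Type} [Group G] {d : ℕ} (t : G →* Matrix (Fin d) (Fin d) ℤ_[2]) (s : G) :
    Prop :=
  (t s).map (PadicInt.toZMod (p := 2)) = 1

/-- **All motives in the tensor category generated by `Z`, at every prime number.** -/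
def AllMotives {L : Type} [Field L] [NumberField L] {ι : Type} (f : ι → L[X]) {d : ℕ}
    (t : AbsoluteGaloisGroup L →* Matrix (Fin d) (Fin d) ℤ_[2]) : Prop :=
  ∀ (m : ℕ) (ν : AbsoluteGaloisGroup L →* Matrix (Fin m) (Fin m) ℚ_[2]), Continuous ν →
    Generated (matRep (toQ t)) (Fin m → ℚ_[2]) (matRep ν) → EveryPrime f ν

/-- The extension `E` of `K` is unramified at the finite places outside of `S`. -/
def UnramifiedOutside {K : Type} [Field K] [NumberField K] (S : Finset (HeightOneSpectrum (𝓞 K)))
    (E : Type) [Field E] [NumberField E] [Algebra K E] : Prop :=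
  ∀ v : HeightOneSpectrum (𝓞 K), v ∉ S → ∀ P : HeightOneSpectrum (𝓞 E),
    P.asIdeal.LiesOver v.asIdeal → v.asIdeal.ramificationIdx' P.asIdeal = 1

/-- **Everything unramified outside of `S`**: all finite extensions `L` of `K` and all integral
representations `t` over `L` such that `L` is contained in a finite normal extension `E` of `K`,
unramified outside of `S`, over which `t` is trivial modulo two. -/
def AllOutside {K : Type} [Field K] [NumberField K] (S : Finset (HeightOneSpectrum (𝓞 K)))
    {ι : Type} (f : ι → K[X]) : Prop :=
  ∀ (L : Type) [Field L] [NumberField L] [Algebra K L]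
    (E : IntermediateField K (AlgebraicClosure L)) [NumberField E], Normal K E →
    (∀ x : L, algebraMap L (AlgebraicClosure L) x ∈ E) → UnramifiedOutside S E →
    ∀ (d : ℕ) (t : AbsoluteGaloisGroup L →* Matrix (Fin d) (Fin d) ℤ_[2]),
      (∀ s : AbsoluteGaloisGroup L, (∀ x ∈ E, s x = x) → TrivialModTwo t s) →
      AllMotives (fun i => (f i).map (algebraMap K L)) t

/-- The tuple of the monic polynomials with the coefficients `y`: the polynomial `i` is
`X ^ n i + ∑ j < n i, y (i, j) X ^ j`. -/
noncomputable def poly {K : Type} [Field K] {ι : Type} {n : ι → ℕ}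
    (y : (Σ i, Fin (n i)) → 𝓞 K) (i : ι) : K[X] :=
  X ^ n i + ∑ j : Fin (n i), C (algebraMap (𝓞 K) K (y ⟨i, j⟩)) * X ^ (j : ℕ)

/-- The tuple `y` is in the residue class `z`. -/
def InClass {R σ : Type} [CommRing R] {I : Ideal R} (y : σ → R) (z : σ → R ⧸ I) : Prop :=
  ∀ j, Ideal.Quotient.mk I (y j) = z j

/-- A sequence of nonempty finite sets of tuples which is equidistributed modulo each ideal with finite
quotient. -/
def Equidistributed {R σ : Type} [CommRing R] [Fintype σ] (B : ℕ → Finset (σ → R)) : Prop :=
  (∀ t, (B t).Nonempty) ∧ ∀ I : Ideal R, Finite (R ⧸ I) → ∀ z : σ → R ⧸ I,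
    Tendsto (fun t => (((B t).filter (fun y => InClass y z)).card : ℝ) / ((B t).card : ℝ)) atTop
      (𝓝 (1 / (Nat.card (R ⧸ I) : ℝ) ^ Fintype.card σ))

/-- The proportion of the tuples `y` in `B t` with the property `P t y` tends to one. -/
def AlmostAll {R σ : Type} (B : ℕ → Finset (σ → R)) (P : ℕ → (σ → R) → Prop) : Prop :=
  Tendsto (fun t => (((B t).filter (P t)).card : ℝ) / ((B t).card : ℝ)) atTop (𝓝 1)

theorem almostAll_mono {R σ : Type} {B : ℕ → Finset (σ → R)} (hB : ∀ t, (B t).Nonempty)
    {P Q : ℕ → (σ → R) → Prop} (h : ∀ᶠ t in atTop, ∀ y, P t y → Q t y) (hP : AlmostAll B P) :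
    AlmostAll B Q := by
  refine tendsto_of_tendsto_of_tendsto_of_le_of_le' hP tendsto_const_nhds
    (h.mono fun t ht => ?_) (Eventually.of_forall fun t => ?_)
  · have h0 : (0 : ℝ) < ((B t).card : ℝ) := by exact_mod_cast (hB t).card_pos
    apply div_le_div_of_nonneg_right _ h0.le
    refine Nat.cast_le.2 (Finset.card_le_card fun y hy => ?_)
    rw [Finset.mem_filter] at hy ⊢
    exact ⟨hy.1, ht y hy.2⟩
  · have h0 : (0 : ℝ) < ((B t).card : ℝ) := by exact_mod_cast (hB t).card_pos
    show _ / _ ≤ (1 : ℝ)
    rw [div_le_one h0]
    exact_mod_cast Finset.card_filter_le _ _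

/-- The choice of slowly growing finite sets. -/
theorem exists_seq {X Y : Type} [Countable X] (W : Finset X → Finset Y) (V : ℕ → Finset Y)
    (hV : ∀ y : Y, ∀ᶠ t in atTop, y ∈ V t) :
    ∃ S : ℕ → Finset X, (∀ x : X, ∀ᶠ t in atTop, x ∈ S t) ∧
      ∀ᶠ t in atTop, W (S t) ⊆ V t := by
  obtain ⟨e, he⟩ := Countable.exists_injective_nat X
  -- the first sets
  have hfin : ∀ k : ℕ, {x : X | e x < k}.Finite := fun k =>
    Set.Finite.preimage he.injOn (Set.finite_lt_nat k)
  let A : ℕ → Finset X := fun k => (hfin k).toFinset
  have hA : ∀ k, ∀ᶠ t in atTop, W (A k) ⊆ V t := by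
    intro k
    have h1 : ∀ᶠ t in atTop, ∀ y ∈ W (A k), y ∈ V t :=
      (Filter.eventually_all_finset _).2 fun y _ => hV y
    exact h1
  choose N hN using fun k => eventually_atTop.1 (hA k)
  -- the largest k ≤ t with `N k ≤ t`
  let κ : ℕ → ℕ := fun t => Nat.findGreatest (fun k => ∀ j ≤ k, N j ≤ t) t
  refine ⟨fun t => A (κ t), fun x => ?_, ?_⟩
  · -- for large `t`, `κ t > e x`
    let k := e x + 1
    let M := (Finset.range (k + 1)).sup N
    refine eventually_atTop.2 ⟨max k M, fun t ht => ?_⟩
    have h1 : k ≤ κ t := by
      apply Nat.le_findGreatest ((le_max_left _ _).trans ht)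
      intro j hj
      have : N j ≤ M := Finset.le_sup (f := N) (Finset.mem_range.2 (by omega))
      exact this.trans ((le_max_right _ _).trans ht)
    simp only [A, Set.Finite.mem_toFinset, Set.mem_ofPred_eq]
    omega
  · refine eventually_atTop.2 ⟨N 0, fun t ht => ?_⟩
    have h1 : ∀ j ≤ κ t, N j ≤ t := by
      have h2 : (fun k => ∀ j ≤ k, N j ≤ t) 0 := fun j hj => by
        have : j = 0 := by omega
        subst this
        exact ht
      exact Nat.findGreatest_spec (P := fun k => ∀ j ≤ k, N j ≤ t) (Nat.zero_le _) h2
    exact hN (κ t) t (h1 (κ t) le_rfl)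

/-- finitely many square classes for each finite set of places -/
theorem exists_W {K : Type} [Field K] [NumberField K] (S : Finset (HeightOneSpectrum (𝓞 K))) :
    ∃ U : Finset Kˣ, ∀ (E : Type) [Field E] [NumberField E] [Algebra K E],
      UnramifiedOutside S E → ∀ c : Kˣ, (∃ δ : E, δ ^ 2 = algebraMap K E c) →
        ∃ u ∈ U, IsSquare (c * u) := by
  obtain ⟨U, hU⟩ := Pool.Agent.U442.Gro.exists_U (K := K) (S : Set _) S.finite_toSet
  exact ⟨U, fun E _ _ _ hE c hc => hU E (fun v hv P hP => hE v (by simpa using hv) P hP) c hc⟩

open Pool.Agent.N197.AP in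
theorem allOutside_of_gd {K : Type} [Field K] [NumberField K] {ι : Type} [Fintype ι] [Nonempty ι]
    {n : ι → ℕ} {S : Finset (HeightOneSpectrum (𝓞 K))} {U : Finset Kˣ}
    (hU : ∀ (E : Type) [Field E] [NumberField E] [Algebra K E],
      UnramifiedOutside S E → ∀ c : Kˣ, (∃ δ : E, δ ^ 2 = algebraMap K E c) →
        ∃ u ∈ U, IsSquare (c * u)) {f : ι → K[X]} (hf : LIM.Gd n U f) : AllOutside S f := by
  intro L _ _ _ E _ hn hL hE d t ht m ν hν hgen
  obtain ⟨hA, hT⟩ := Pool.Agent.U442.Gro.allowed_tame (S := (S : Set _)) (U := U)
    (fun E _ _ _ hE c hc => hU E (fun v hv P hP => hE v (by simpa using hv) P hP) c hc) E hn hL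
    (fun v hv P hP => hE v (by simpa using hv) P hP) f t ht
  have hgov := Pool.Agent.U442.Htj.governed_of_generated
    (Pool.Agent.U442.Htj.EP.hasMatrices_toQ t) hgen
  obtain ⟨h1, h2⟩ := hf L (AlgebraicClosure L) hA _ _
    (Pool.Agent.U442.Htj.tame_of_governed n hT hgov)
  exact Pool.Agent.U442.Htj.EP.everyPrime_of_gd _ h1 ν hν h2

/-- **The Mumford-Tate conjecture for the products of 100% of the hyperelliptic Jacobians with all
varieties with good reduction outside of a finite set of places.** -/
theorem result {K : Type} [Field K] [NumberField K] {ι : Type} [Fintype ι] [Nonempty ι]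
    (n : ι → ℕ) (h7 : ∀ i, 7 ≤ n i) (ho : ∀ i, Odd (n i)) :
    (∀ S : Finset (HeightOneSpectrum (𝓞 K)),
      (∀ B : ℕ → Finset ((Σ i, Fin (n i)) → 𝓞 K), Equidistributed B →
        AlmostAll B fun _ y => AllOutside S (poly y)) ∧
      ∀ η : ℝ, 0 < η → ∃ I : Ideal (𝓞 K), Finite (𝓞 K ⧸ I) ∧
        (1 - η) * (Nat.card ((Σ i, Fin (n i)) → 𝓞 K ⧸ I) : ℝ) ≤
          (Nat.card {z : (Σ i, Fin (n i)) → 𝓞 K ⧸ I //
            ∀ y : (Σ i, Fin (n i)) → 𝓞 K, InClass y z → AllOutside S (poly y)} : ℝ)) ∧
    ∀ B : ℕ → Finset ((Σ i, Fin (n i)) → 𝓞 K), Equidistributed B →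
      ∃ S : ℕ → Finset (HeightOneSpectrum (𝓞 K)), (∀ v, ∀ᶠ t in atTop, v ∈ S t) ∧
        AlmostAll B fun t y => AllOutside (S t) (poly y) := by
  have hfield : ¬ IsField (𝓞 K) := NumberField.RingOfIntegers.not_isField K
  choose W hW using exists_W (K := K)
  refine ⟨fun S => ?_, fun B hB => ?_⟩
  · have hgood : ∀ y : (Σ i, Fin (n i)) → 𝓞 K,
        Pool.Agent.N197.AP.LIM.Gd n (W S) (Pool.Agent.N197.Htj.poly K y) →
        AllOutside S (poly y) := fun y hy => allOutside_of_gd (hW S) hy
    have hdens : ∀ η : ℝ, 0 < η → ∃ M : Ideal (𝓞 K), Finite (𝓞 K ⧸ M) ∧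
        (1 - η) * (Nat.card (𝓞 K ⧸ M) : ℝ) ^ (Fintype.card (Σ i, Fin (n i))) ≤
        (({x : (Σ i, Fin (n i)) → 𝓞 K ⧸ M | ∀ y : (Σ i, Fin (n i)) → 𝓞 K,
          (∀ j, Ideal.Quotient.mk M (y j) = x j) →
            Pool.Agent.N197.AP.LIM.Gd n (W S) (Pool.Agent.N197.Htj.poly K y)}).ncard : ℝ) :=
      fun η hη => Pool.Agent.N197.AP.LIM.dens_gd (𝓞 K) K n hfield two_ne_zero h7 ho (W S) η hη
    refine ⟨fun B hB => ?_, fun η hη => ?_⟩
    · have h1 := Pool.Agent.X243.Gen.tendsto_of_dens
        {y | Pool.Agent.N197.AP.LIM.Gd n (W S) (Pool.Agent.N197.Htj.poly K y)} hdens B hB.1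
        (fun M hM x => by
          have h3 := hB.2 M hM x
          unfold InClass at h3
          convert h3)
      have h3 : AlmostAll B (fun _ y =>
          Pool.Agent.N197.AP.LIM.Gd n (W S) (Pool.Agent.N197.Htj.poly K y)) := by
        unfold AlmostAll
        convert h1
        exact Iff.rfl
      exact almostAll_mono hB.1 (Eventually.of_forall fun _ y hy => hgood y hy) h3
    · obtain ⟨I, hI, h⟩ := hdens η hη
      refine ⟨I, hI, ?_⟩
      have := hI
      have := Fintype.ofFinite (𝓞 K ⧸ I)
      have h1 : Nat.card ((Σ i, Fin (n i)) → 𝓞 K ⧸ I) =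
          Nat.card (𝓞 K ⧸ I) ^ Fintype.card (Σ i, Fin (n i)) := by
        rw [Nat.card_eq_fintype_card, Nat.card_eq_fintype_card, Fintype.card_fun]
      rw [h1, Nat.cast_pow]
      refine h.trans ?_
      rw [← Nat.card_coe_set_eq]
      refine Nat.cast_le.2 ?_
      exact Nat.card_mono (Set.toFinite {z : (Σ i, Fin (n i)) → 𝓞 K ⧸ I |
          ∀ y : (Σ i, Fin (n i)) → 𝓞 K, InClass y z → AllOutside S (poly y)})
        fun z hz y hy => hgood y (hz y hy)
  · obtain ⟨V, hV, h⟩ := Pool.Agent.N197.AP.lim_gd (𝓞 K) K n hfield two_ne_zero h7 ho B hB.1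
      (fun M hM x => by
        have h3 := hB.2 M hM x
        unfold InClass at h3
        convert h3)
    have : Countable (HeightOneSpectrum (𝓞 K)) := by
      have hK : Countable K := (Module.finBasis ℚ K).equivFun.injective.countable
      have hO : Countable (𝓞 K) :=
        (FaithfulSMul.algebraMap_injective (𝓞 K) K).countable
      have : Countable (Ideal (𝓞 K)) := by
        refine Function.Surjective.countable
          (f := fun s : Finset (𝓞 K) => Ideal.span (s : Set (𝓞 K))) fun I => ?_
        obtain ⟨s, hs⟩ := (isNoetherianRing_iff_ideal_fg (𝓞 K)).1 inferInstance I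
        exact ⟨s, hs⟩
      exact Function.Injective.countable (f := fun v : HeightOneSpectrum (𝓞 K) => v.asIdeal)
        fun v w h => HeightOneSpectrum.ext h
    obtain ⟨S, hS, hSW⟩ := exists_seq W V hV
    refine ⟨S, hS, ?_⟩
    have h3 : AlmostAll B (fun t y =>
        Pool.Agent.N197.AP.LIM.Gd n (V t) (Pool.Agent.N197.Htj.poly K y)) := by
      unfold AlmostAll
      convert h
    refine almostAll_mono hB.1 (hSW.mono fun t ht y hy => ?_) h3
    refine allOutside_of_gd (U := V t) (fun E _ _ _ hE c hc => ?_) hy
    obtain ⟨u, hu, h⟩ := hW (S t) E hE c hc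
    exact ⟨u, ht hu, h⟩

end Pool.Agent.Results.MP_c1bb77_ag.GoodReductionOutsideS
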