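import Pool.Agent.U436.CH.Main

/-!
# The cohomology of diagonal complete intersections of prime exponent in terms of superelliptic curves

Let `k` be an algebraically closed field (for the problem: of characteristic zero), `n` a prime number which is
invertible in `k`, `p 1, …, p N ∈ k` distinct, `c 1, …, c N ∈ k` nonzero, `m + d + 1 = N`, `d ≥ 1`, and `X` the
complete intersection `∑ i, c i * p i ^ j * x i ^ n = 0`, `0 ≤ j < m`, in the projective space of dimension `N - 1`.
It is smooth of dimension `d`. For a vector `a` of residues `0 ≤ a i < n`, not all zero, whose sum is divisible by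
`n`, let `Y_a` be the cyclic covering `w ^ n = ∏ i, P (p i) ^ a i` of the projective space of dimension `d` of the
polynomials `P ≠ 0` of degree at most `d` (up to scalars), and `C_a` the curve `w ^ n = ∏ i, L (p i) ^ a i`
(the same for `d = 1`).

(1) `Y_a` is the quotient of `X` by the kernel of the character `a` of the group of vectors of `n`-th roots of unity.

(2) `Y_a` is the quotient of the `d`-th power of `C_a` by a finite group.

So the part of the cohomology of `X` which belongs to the character `a` is a part of the exterior power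
`⋀ ^ d H¹(C_a)`, and the whole cohomology of `X` is in the tensor category generated by the `H¹` of the curves
`C_a`. For `n = 2` the curves `C_a` are the hyperelliptic curves `w² = ∏_(i ∈ S) L (p i)`, `|S|` even, of genus
`|S| / 2 - 1`. So for all the smooth complete intersections `X` of `m` quadrics
`∑ i, c i * p i ^ j * x i ^ 2 = 0` in the projective spaces of dimension `N - 1 ≤ 7`, of all dimensions
`d = N - 1 - m`, only curves of genus at most three occur (for `n = 3` and `N ≤ 5` as well). The Mumford-Tate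
conjecture is known for all products of abelian varieties of dimension at most three, so it holds for all these
`X`, for all their products and powers, and all degrees `i` (not formalised).
-/

set_option autoImplicit false

namespace Pool.Agent.Results.MP_c1bb77_ag.HyperellipticPieces

open Pool.Agent.U436.CH Polynomial
open Pool.Agent.U436.HP (pts form wt)

variable {k : Type} [Field k] {N : ℕ}

/-- `Y_a` is the quotient of `X` by the kernel of the character `a`. -/
def QuotientOfX (n m d e : ℕ) (p c lam : Fin N → k) (a : Fin N → ℕ) : Prop :=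
  (∀ x ∈ pts n m p c, ∃! z, Image d n p lam a x z) ∧
  (∀ z, (∃ x ∈ pts n m p c, Image d n p lam a x z) ↔ z ∈ cyc d n p a) ∧
  (∀ x x' z z', Image d n p lam a x z → Image d n p lam a x' z' →
    (Same e z z' ↔ ∃ (t : k) (ζ : Fin N → k), t ≠ 0 ∧ (∀ i, ζ i ^ n = 1) ∧ ∏ i, ζ i ^ a i = 1 ∧
      ∀ i, x' i = t * (ζ i * x i)))

/-- `Y_a` is a quotient of the `d`-th power of `C_a`. -/
def QuotientOfPower (n d e : ℕ) (p : Fin N → k) (a : Fin N → ℕ) : Prop :=
  (∀ u : Fin d → k[X] × k, (∀ j, u j ∈ cyc 1 n p a) → mulMap u ∈ cyc d n p a) ∧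
  (∀ z ∈ cyc d n p a, ∃ u : Fin d → k[X] × k, (∀ j, u j ∈ cyc 1 n p a) ∧ mulMap u = z) ∧
  (∀ u u' : Fin d → k[X] × k, (∀ j, u j ∈ cyc 1 n p a) → (∀ j, u' j ∈ cyc 1 n p a) →
    (Same e (mulMap u) (mulMap u') ↔ ∃ (σ : Equiv.Perm (Fin d)) (ζ : Fin d → k),
      (∀ j, ζ j ^ n = 1) ∧ ∏ j, ζ j = 1 ∧ ∀ j, Same e ((u (σ j)).1, ζ j * (u (σ j)).2) (u' j)))

theorem result (k : Type) [Field k] [IsAlgClosed k] (n N m d : ℕ) (hnp : n.Prime) (hn : (n : k) ≠ 0)
    (hd : 1 ≤ d) (hN : m + d + 1 = N) (p c : Fin N → k) (hp : Function.Injective p) (hc : ∀ i, c i ≠ 0) :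
    (∀ x ∈ pts n m p c, LinearIndependent k fun (j : Fin m) (i : Fin N) =>
      MvPolynomial.eval x (MvPolynomial.pderiv i (form n p c j))) ∧
    ∃ lam : Fin N → k, (∀ i, c i * lam i ^ n = wt p i) ∧
      ∀ (a : Fin N → ℕ) (e : ℕ), (∀ i, a i < n) → (∃ i, a i ≠ 0) → ∑ i, a i = n * e →
        QuotientOfX n m d e p c lam a ∧ QuotientOfPower n d e p a := by
  have hn0 := hnp.ne_zero
  refine ⟨fun x hx => Pool.Agent.U436.HP.smooth hn hp hc hN hx, ?_⟩
  obtain ⟨lam, hlam0, hlam⟩ := Pool.Agent.U436.HP.exists_lam hn0 hp hc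
  refine ⟨lam, hlam, fun a e ha ha0 he => ⟨⟨fun x hx => ?_, fun z => ⟨?_, fun hz => ?_⟩,
    fun x x' z z' h h' => image_same_iff hnp ha he hp hN hlam0 h h'⟩,
    fun u hu => mulMap_mem hu, fun z hz => mulMap_surj hd hn0 hz,
    fun u u' hu hu' => mulMap_same_iff hn0 he hu hu'⟩⟩
  · obtain ⟨z, hz⟩ := exists_image (a := a) hn0 hp hc hN hlam hx
    exact ⟨z, hz, fun z' hz' => image_unique hp hN hz' hz⟩
  · rintro ⟨x, _, hx⟩
    exact image_mem hx
  · exact image_surj hnp ha ha0 hp hN hlam hz

end Pool.Agent.Results.MP_c1bb77_ag.HyperellipticPieces
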