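import Mathlib
import Pool.Agent.U103.CF.Split

/-!
# The Mumford-Tate conjecture for abelian varieties: two parts, in degree four

Let `A` be an abelian variety over a number field, of any dimension and with arbitrary
endomorphisms. `W = H_1(A, ℚ)`, `T` is the tangent space at the origin and `per : W → T` the
inclusion; `ω₀` is the Riemann form of a polarization. For each prime `ℓ` the rational Tate module is
`V_ℓ = ℚ_ℓ ⊗ W`, with the continuous action `ρ ℓ` of the Galois group `Γ`, the cyclotomic character
`χ ℓ` and the Weil pairing (`IsTateSystem`). An `ℓ`-adic Tate class (`IsTateTensor`) is a multilinear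
form in `2 m` variables on `V_ℓ` on which a subgroup of finite index of `Γ` acts through `(χ ℓ) ^ m`,
that is, a Tate class in `(H^1)^{⊗ 2 m} (m)`. The known theorems which are used are hypotheses
(`KnownTheorems`): the theorems of Faltings (`Semisimple`, `Faltings`), the theorem of Deligne that
Hodge classes on abelian varieties are Tate classes (`Deligne`), and the theorem that the
Mumford-Tate conjecture holds for the centres (Vasiu, Ullmo-Yafaev; `Centres`).

The Mumford-Tate conjecture for `A` at `ℓ` says that the two reductive groups `G_ℓ` and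
`MT(A) ⊗ ℚ_ℓ` are equal, that is, that they have the same invariants: all `ℓ`-adic Tate classes, of
all degrees, are linear combinations of Hodge classes (`MumfordTateAt`). Let `Q` be a set of primes,
for example all primes. A rational form `ψ` on `W` is a *common Tate class* for `Q`
(`IsCommonTate`) if its extension to `V_ℓ` is an `ℓ`-adic Tate class for each `ℓ` in `Q`.

**Theorem.** There are classes `Θ_ℓ` in `(H^1)^{⊗ 4} (2)` (so in `H^4(A ^ 4, ℚ_ℓ(2))`), one for each
prime `ℓ`, fixed by the whole Galois group, such that for every set `Q` of primes and every prime `p`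
in `Q` the following are equivalent.

1. The Mumford-Tate conjecture holds for `A` at each prime `ℓ` in `Q`.
2. The Mumford-Tate conjecture holds for `A` at the one prime `p`, and for each `ℓ` in `Q` the class
   `Θ_ℓ` is a linear combination of rational forms which are Tate classes for the primes `p` and `ℓ`.
3. (a) For every two primes `ℓ`, `ℓ'` in `Q` the class `Θ_ℓ` is a linear combination of rational
   forms which are Tate classes for the primes `ℓ` and `ℓ'`; and (b) each rational form in
   `(H^1)^{⊗ 4} (2)` which is a Tate class for all primes in `Q` is a Hodge class.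

So the Mumford-Tate conjecture for `A`, in all degrees, is the conjunction of two statements about
classes of degree four (codimension two on `A ^ 4`): (a) is about the Galois representations only,
one class for each prime and two primes at a time; it holds if and only if the Lie algebras of the
`ℓ`-adic monodromy groups have a common rational form (`MP_e965d0_ag.QuarticClassesDecide`). (b) is
about rational classes only: classes which are Tate classes everywhere are Hodge classes. For
`Q = {p}` the conjecture at `p` is the conjunction of: `Θ_p` is a combination of rational forms which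
are Tate classes at `p`, and these rational forms, in degree four, are Hodge classes. (That the
conjecture at one prime implies it at all primes is a theorem of Larsen and Pink, proved with the
ranks of the groups; 2 is weaker than this theorem.)

The proof. `Θ_ℓ` is the Casimir form of the Lie algebra `𝔥_ℓ` of all endomorphisms which annihilate
the `ℓ`-adic Tate classes (`Pool.Agent.U188.MTQ`, by helper188). By
`MP_e965d0_ag.QuarticClassesDecide` the condition (a) gives a rational space `𝔤` of endomorphisms of
`W` with `ℚ_ℓ ⊗ 𝔤 = 𝔥_ℓ` for each `ℓ` in `Q`, and all Tate classes are combinations of common Tate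
classes. A rational form whose extension is a combination of Hodge classes is a Hodge class, as the
Hodge classes are the rational forms annihilated by a rational space of endomorphisms. So if the
conjecture holds at `p`, then the common Tate classes are Hodge classes, in all degrees; and if (b)
holds, then `Θ_ℓ` is a combination of Hodge classes, which implies the conjecture at `ℓ`
(`MP_33b3f9_ag.OneQuarticClass`, by helper188).
-/

namespace Pool.Agent.Results.MP_c1bb77_ag.TwoPartsForAbelianVarieties

open Module TensorProduct Pool.Agent.W516.MTD Pool.Agent.U103.CF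
open Pool.Agent.H204R3.GP (IsTateTensor IsHodgeTensor)

/-- **The Mumford-Tate conjecture for abelian varieties: two parts, in degree four.** -/
theorem result
    -- the complex torus `A(ℂ)` with a polarization
    {W T : Type} [AddCommGroup W] [Module ℚ W] [FiniteDimensional ℚ W] [AddCommGroup T] [Module ℂ T]
    (per : W →+ T) (hper : IsRationalStructure per)
    (ω₀ : W →ₗ[ℚ] W →ₗ[ℚ] ℚ) (hR : IsRiemannForm per ω₀)
    -- the Galois group and the Tate modules, for all primes
    {Γ : Type} [Group Γ] [TopologicalSpace Γ] [IsTopologicalGroup Γ] [CompactSpace Γ]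
    (ρ : ∀ (ℓ : ℕ) [Fact ℓ.Prime], Representation ℚ_[ℓ] Γ (ℚ_[ℓ] ⊗[ℚ] W))
    (χ : ∀ (ℓ : ℕ) [Fact ℓ.Prime], Γ →* ℚ_[ℓ]) (hρ : IsTateSystem ρ χ ω₀)
    -- the theorems of Faltings, Deligne, and Vasiu, Ullmo-Yafaev
    (hK : KnownTheorems ρ χ per) :
    ∃ Θ : ∀ (ℓ : ℕ) [Fact ℓ.Prime],
        MultilinearMap ℚ_[ℓ] (fun _ : Fin 2 × Fin 2 => ℚ_[ℓ] ⊗[ℚ] W) ℚ_[ℓ],
      (∀ (ℓ : ℕ) [Fact ℓ.Prime] s v, Θ ℓ (fun l => ρ ℓ s (v l)) = χ ℓ s ^ 2 * Θ ℓ v) ∧
      ∀ (Q : Set ℕ) (p : ℕ) [Fact p.Prime], p ∈ Q → List.TFAE [
        ∀ (ℓ : ℕ) [Fact ℓ.Prime], ℓ ∈ Q → MumfordTateAt ρ χ per ℓ,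
        MumfordTateAt ρ χ per p ∧
          ∀ (ℓ : ℕ) [Fact ℓ.Prime], ℓ ∈ Q → IsCommonCombination ρ χ {p, ℓ} ℓ 2 (Θ ℓ),
        (∀ (ℓ ℓ' : ℕ) [Fact ℓ.Prime] [Fact ℓ'.Prime], ℓ ∈ Q → ℓ' ∈ Q →
          IsCommonCombination ρ χ {ℓ, ℓ'} ℓ 2 (Θ ℓ)) ∧
          ∀ ψ : MultilinearMap ℚ (fun _ : Fin 2 × Fin 2 => W) ℚ,
            IsCommonTate ρ χ Q 2 ψ → IsHodgeTensor per ψ] :=
  two_parts ρ χ per ω₀ hper hR hρ hK

end Pool.Agent.Results.MP_c1bb77_ag.TwoPartsForAbelianVarieties
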